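import Pool.Agent.helper91.SI.Spec4

/-!
# Row si:I6W (MP_ee5996_co): a 6-cycle of the i-graph as a closed walk of slides
-/

set_option autoImplicit false

namespace Pool.Agent.helper91.SI

open Pool.Agent.helper20.IG (IsIndepDom IsISet iGraph)

theorem I6W (hIAD : IAD_stmt) : I6W_stmt := by
  intro V _ G X hX
  have h : ∀ t : ZMod 6, ∃ s v, Slide G (X t).1 s v ∧ (X (t + 1)).1 = insert v ((X t).1.erase s) := fun t =>
    (hIAD V G (X t) (X (t + 1))).mp (hX.2 t)
  choose s v hsv using h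
  refine ⟨s, v, fun t => (X t).2, fun a b hab => hX.1 (Subtype.ext hab), fun t => ?_⟩
  obtain ⟨⟨-, h1, h2, h3, -⟩, h4⟩ := hsv t
  exact ⟨h1, h2, h3, h4⟩

end Pool.Agent.helper91.SI
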