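import Pool.Agent.helper91.SI.Spec3

/-!
# Row si:NMC (MP_ee5996_co): always exactly two tokens on the 5-cycle
-/

set_option autoImplicit false

namespace Pool.Agent.helper91.SI

open Pool.Agent.helper20.IG (IsIndepDom IsISet iGraph)

theorem NMC_dec : ∀ T : Finset (ZMod 5), (∀ i, i ∈ T → i + 1 ∈ T → False) → 2 ≤ T.card →
    ∃ j, ∀ i, i ∈ T ↔ (i = j ∨ i = j + 2) := by
  decide

theorem NMC_all (C : ZMod 7 → ℕ) (K : ZMod 7 → Prop) (c : ZMod 7) (hK : ∀ t, t ≠ c → t ≠ c + 3 → K t)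
    (h1 : ∀ t, K t → C (t + 1) = C t) (h2 : ∀ t, K t → K (t + 1) → 2 ≤ C (t + 1)) : ∀ t, 2 ≤ C t := by
  have hk : ∀ d : ZMod 7, d ≠ 0 → d ≠ 3 → K (c + d) := fun d hd hd' => by
    refine hK _ (fun h => hd ?_) (fun h => hd' ?_)
    · have : c + d = c + 0 := by rw [h, add_zero]
      exact add_left_cancel this
    · exact add_left_cancel h
  have k1 := hk 1 (by decide) (by decide)
  have k2 := hk 2 (by decide) (by decide)
  have k4 := hk 4 (by decide) (by decide)
  have k5 := hk 5 (by decide) (by decide)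
  have k6 := hk 6 (by decide) (by decide)
  have e1 : c + 1 + 1 = c + 2 := by rw [add_assoc]; rfl
  have e2 : c + 2 + 1 = c + 3 := by rw [add_assoc]; rfl
  have e4 : c + 4 + 1 = c + 5 := by rw [add_assoc]; rfl
  have e5 : c + 5 + 1 = c + 6 := by rw [add_assoc]; rfl
  have e6 : c + 6 + 1 = c + 0 := by rw [add_assoc]; rfl
  have a1 := h1 _ k1
  have a2 := h1 _ k2
  have a4 := h1 _ k4
  have a5 := h1 _ k5
  have a6 := h1 _ k6
  rw [e1] at a1
  rw [e2] at a2
  rw [e4] at a4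
  rw [e5] at a5
  rw [e6] at a6
  have b1 := h2 _ k1 (by rw [e1]; exact k2)
  have b4 := h2 _ k4 (by rw [e4]; exact k5)
  rw [e1] at b1
  rw [e4] at b4
  have key : ∀ d : ZMod 7, 2 ≤ C (c + d) := by
    intro d
    fin_cases d
    · show 2 ≤ C (c + 0)
      omega
    · show 2 ≤ C (c + 1)
      omega
    · show 2 ≤ C (c + 2)
      omega
    · show 2 ≤ C (c + 3)
      omega
    · show 2 ≤ C (c + 4)
      omega
    · show 2 ≤ C (c + 5)
      omega
    · show 2 ≤ C (c + 6)
      omega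
  intro t
  have := key (t - c)
  rwa [add_sub_cancel] at this

theorem NMC (hNB1 : NB1_stmt) (hNM1 : NM1_stmt) : NMC_stmt := by
  intro V _ G S s v q r r' a b ρ hT h4 hM
  obtain ⟨hW, hq, hadj, hρ, hab, hρab, hsv, hsa, hva, hsb, hvb⟩ := hM
  have hM' : MT G S s v q r r' a b ρ := ⟨hW, hq, hadj, hρ, hab, hρab, hsv, hsa, hva, hsb, hvb⟩
  have hnb := hNB1 V G S s v hT hW
  have hc := hNM1 V G S s v q r r' a b ρ hT h4 hM'
  obtain ⟨hI, hSinj, hst⟩ := hW
  let T : ZMod 7 → Finset (ZMod 5) := fun t => Finset.univ.filter fun i => q i ∈ S t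
  have hTm : ∀ t i, i ∈ T t ↔ q i ∈ S t := fun t i => by
    simp only [T, Finset.mem_filter, Finset.mem_univ, true_and]
  have hind : ∀ t i, i ∈ T t → i + 1 ∈ T t → False := fun t i hi hi' => by
    rw [hTm] at hi hi'
    exact (hI t).1.1 _ hi _ hi' (hadj i)
  -- every other time is a slide on the cycle
  have hkind : ∀ t, t ≠ a → t ≠ b → ∃ i, ρ i = t := by
    intro t hta htb
    have h1 : (Finset.univ.image ρ) = (Finset.univ.erase a).erase b := by
      apply Finset.eq_of_subset_of_card_le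
      · intro x hx
        obtain ⟨i, -, rfl⟩ := Finset.mem_image.mp hx
        exact Finset.mem_erase.mpr ⟨(hρab i).2, Finset.mem_erase.mpr ⟨(hρab i).1, Finset.mem_univ _⟩⟩
      · rw [Finset.card_image_of_injective _ hρ, Finset.card_erase_of_mem
          (Finset.mem_erase.mpr ⟨hab.symm, Finset.mem_univ _⟩), Finset.card_erase_of_mem (Finset.mem_univ _)]
        simp [ZMod.card]
    have h2 : t ∈ Finset.univ.image ρ := by
      rw [h1]
      exact Finset.mem_erase.mpr ⟨htb, Finset.mem_erase.mpr ⟨hta, Finset.mem_univ _⟩⟩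
    obtain ⟨i, -, hi⟩ := Finset.mem_image.mp h2
    exact ⟨i, hi⟩
  have h1 : ∀ t, (∃ i, ρ i = t) → (T (t + 1)).card = (T t).card := by
    rintro t ⟨i, rfl⟩
    obtain ⟨hs1, hv1, -, hS⟩ := hst (ρ i)
    rw [(hsv i).1] at hs1 hS
    rw [(hsv i).2] at hv1 hS
    have h2 : T (ρ i + 1) = insert (i + 1) ((T (ρ i)).erase i) := by
      ext j
      rw [hTm, hS, Finset.mem_insert, Finset.mem_erase, Finset.mem_insert, Finset.mem_erase, hTm, hq.eq_iff,
        ne_eq, hq.eq_iff]
    rw [h2, Finset.card_insert_of_notMem, Finset.card_erase_of_mem]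
    · have : 0 < (T (ρ i)).card := Finset.card_pos.mpr ⟨i, (hTm _ _).mpr hs1⟩
      omega
    · exact (hTm _ _).mpr hs1
    · intro h3
      exact hv1 ((hTm _ _).mp (Finset.mem_erase.mp h3).2)
  have h2 : ∀ t, (∃ i, ρ i = t) → (∃ i, ρ i = t + 1) → 2 ≤ (T (t + 1)).card := by
    rintro t ⟨i, rfl⟩ ⟨i', hi'⟩
    obtain ⟨-, -, -, hS⟩ := hst (ρ i)
    have h3 := (hst (ρ i + 1)).1
    have h4 := hnb (ρ i)
    rw [← hi', (hsv i').1] at h3 h4
    rw [(hsv i).2] at h4 hS
    have h5 : i' ≠ i + 1 := fun h => h4 (by rw [h])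
    have h6 : i + 1 ∈ T (ρ i + 1) := by
      rw [hTm, hS]
      exact Finset.mem_insert_self _ _
    have h7 : i' ∈ T (ρ i + 1) := by
      rw [hTm, ← hi']
      exact h3
    exact Finset.one_lt_card.mpr ⟨i', h7, i + 1, h6, h5⟩
  have hall : ∀ t, 2 ≤ (T t).card := by
    rcases hc with hc | hc
    · exact NMC_all (fun t => (T t).card) (fun t => ∃ i, ρ i = t) a
        (fun t ht ht' => hkind t ht (by rw [hc]; exact ht')) h1 h2
    · exact NMC_all (fun t => (T t).card) (fun t => ∃ i, ρ i = t) b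
        (fun t ht ht' => hkind t (by rw [hc]; exact ht') ht) h1 h2
  intro t
  obtain ⟨j, hj⟩ := NMC_dec (T t) (hind t) (hall t)
  exact ⟨j, fun i => by rw [← hTm]; exact hj i⟩

end Pool.Agent.helper91.SI
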